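import Mathlib
import Pool.Agent.V11187.AH.Main

/-!
# Artin's holomorphy conjecture at points where Hecke L-functions of a subextension have small order

`Pool.Agent.H541R3.ART.Irr G` is the set of irreducible complex characters of the finite group `G`.

`Pool.Agent.H541R3.ART.ArtinData G s₀` is a family of functions with the formal properties of the
Artin L-functions of a Galois extension `E/K` with group `G` near a point `s₀ ≠ 1`: functions
`L χ` for the irreducible characters `χ` of `G` and `Lin H ψ` for the linear characters `ψ` of the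
subgroups `H`, such that `L χ` is meromorphic and not identically zero near `s₀` (Brauer), `Lin H ψ`
has no pole at `s₀` (Artin reciprocity and Hecke), and `Lin H ψ` is the product of the
`L χ ^ ⟨χ|_H, ψ⟩` (induction). So for a normal subgroup `N` with fixed field `F` the functions
`Lin N ψ` are the Hecke L-functions of the linear characters of `N = Gal(E/F)`.

`Pool.Agent.W446.AS.TwoDim A` are functions with the formal properties of the Artin L-functions of
the irreducible characters of degree two of the subgroups of `G`; for solvable `G` these have no pole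
at `s₀` by the theorem of Langlands and Tunnell.

`Pool.Agent.W446.AS.Free lt n T` says that no quotient `X` of a subgroup of `T` has a frame `F` of
degree `D` (with `D ≠ 2` if `lt` holds) such that `2 D ≤ n`, or `D ≤ n` and `X / F` is cyclic. Here
`F` is a frame of degree `D > 1` if the centre `Z` of `X` is cyclic and contains all abelian normal
subgroups of `X`, and `F` is a normal subgroup of `X` containing `Z` such that `F / Z` is abelian of
order `D ^ 2` and the centraliser of `F` in `X` is `Z`.

`Pool.Agent.V11187.AH.stab N ψ` is the stabiliser in `G` of the linear character `ψ` of `N`, and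
`Pool.Agent.V11187.AH.Supersolvable Q` says that `Q` has a finite chain of normal subgroups, from the
trivial subgroup to `Q`, with cyclic successive quotients.
-/

set_option autoImplicit false

namespace Pool.Agent.Results.MP_d2121a_nt.HeckeOrders

open Pool.Agent.H541R3.ART Pool.Agent.W446.AS Pool.Agent.V11187.AH

/-- The character `χ` of `G` lies over the linear character `ψ` of `N`: the multiplicity of `ψ` in
the restriction of `χ` is not zero. -/
def Over {G : Type} [Group G] (N : Subgroup G) (ψ : N →* ℂˣ) (χ : G → ℂ) : Prop :=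
  ∑ᶠ a : N, χ a * (((ψ a)⁻¹ : ℂˣ) : ℂ) ≠ 0

/-- Let `G` be the Galois group of `E/K`, let `N` be a normal subgroup and `F` its fixed field.
(1) Let the irreducible character `χ` of `G` lie over the linear character `ψ` of `N`, let `T` be the
stabiliser of `ψ`, and let the Hecke L-function of `ψ` (over `F`) have order at most `n` at `s₀`. If
`n ≤ 1`, or if `T / N` is supersolvable, or if `T` is solvable and `Free n T` holds, then `L χ` has no
pole at `s₀`, and its order is at most `n`.
(2) Let `N` be abelian. If for every linear character `ψ` of `N` the Hecke L-function of `ψ` has at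
most a simple zero at `s₀`, or the quotient by `N` of the stabiliser of `ψ` is supersolvable, then no
`L χ` has a pole at `s₀`.
(3) Let `N` be abelian, and let the Hecke L-functions of the linear characters of `N` have order at
most `R` at `s₀`. If `R ≤ 1`, then all `L χ` are holomorphic with at most a simple zero at `s₀`. If `G`
is solvable, then no `L χ` has a pole at `s₀` (and all orders are at most `R`) in each of the following
cases: `R ≤ 2 P - 2` and all prime divisors of `|G|` are at least `P ≥ 3`; `R ≤ 12` and `|G|` is prime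
to `6`; `R ≤ 10` and `|G|` is odd and divisible neither by `375` nor by `1215`; the `L`-functions of
degree two have no pole at `s₀` and `R ≤ 2`, or `R ≤ 6` and `|G|` is divisible by none of `108`,
`160`, `375`. -/
theorem result (G : Type) [Group G] [Finite G] (s₀ : ℂ) (A : ArtinData G s₀) (N : Subgroup G)
    [N.Normal] :
    (∀ χ ∈ Irr G, ∀ ψ : N →* ℂˣ, Over N ψ χ → ∀ n : ℕ,
      meromorphicOrderAt (A.Lin N ψ) s₀ ≤ (n : WithTop ℤ) →
      (n ≤ 1 ∨ Supersolvable (stab N ψ ⧸ N.subgroupOf (stab N ψ)) ∨
        (Group.IsSolvable (stab N ψ) ∧ Free (Nonempty (TwoDim A)) n (stab N ψ))) →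
      0 ≤ meromorphicOrderAt (A.L χ) s₀ ∧ meromorphicOrderAt (A.L χ) s₀ ≤ (n : WithTop ℤ)) ∧
    ((∀ a ∈ N, ∀ b ∈ N, a * b = b * a) →
      ((∀ ψ : N →* ℂˣ, meromorphicOrderAt (A.Lin N ψ) s₀ ≤ 1 ∨
          Supersolvable (stab N ψ ⧸ N.subgroupOf (stab N ψ))) →
        ∀ χ ∈ Irr G, 0 ≤ meromorphicOrderAt (A.L χ) s₀) ∧
      ∀ R : ℕ, (∀ ψ : N →* ℂˣ, meromorphicOrderAt (A.Lin N ψ) s₀ ≤ (R : WithTop ℤ)) →
        (R ≤ 1 ∨ (Group.IsSolvable G ∧
          ((∃ P : ℕ, 3 ≤ P ∧ R ≤ 2 * P - 2 ∧ ∀ q : ℕ, q.Prime → q ∣ Nat.card G → P ≤ q) ∨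
            (R ≤ 12 ∧ (Nat.card G).Coprime 6) ∨
            (R ≤ 10 ∧ Odd (Nat.card G) ∧ ¬ 375 ∣ Nat.card G ∧ ¬ 1215 ∣ Nat.card G) ∨
            (Nonempty (TwoDim A) ∧ (R ≤ 2 ∨ (R ≤ 6 ∧ ¬ 108 ∣ Nat.card G ∧
              ¬ 160 ∣ Nat.card G ∧ ¬ 375 ∣ Nat.card G)))))) →
        ∀ χ ∈ Irr G, 0 ≤ meromorphicOrderAt (A.L χ) s₀ ∧
          meromorphicOrderAt (A.L χ) s₀ ≤ (R : WithTop ℤ)) := by
  classical
  refine ⟨?_, fun hab => ?_⟩
  · intro χ hχ ψ hover n hn hc
    obtain ⟨d, ρ, hρ, rfl⟩ := exists_rep hχ
    obtain ⟨v₀, hv₀, hv⟩ := exists_vec (ρ := ρ) N ψ hover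
    exact artin_over A N ψ hρ hv₀ hv hn hc
  · have main : ∀ χ ∈ Irr G, ∃ ψ : N →* ℂˣ, ∀ n : ℕ,
        meromorphicOrderAt (A.Lin N ψ) s₀ ≤ (n : WithTop ℤ) →
        Good (Nonempty (TwoDim A)) N ψ n →
        0 ≤ meromorphicOrderAt (A.L χ) s₀ ∧ meromorphicOrderAt (A.L χ) s₀ ≤ (n : WithTop ℤ) := by
      intro χ hχ
      obtain ⟨d, ρ, hρ, rfl⟩ := exists_rep hχ
      obtain ⟨ψ, v₀, hv₀, hv⟩ := exists_weight (B := N)
        (fun a b => Subtype.ext (hab a a.2 b b.2)) (ρ.comp N.subtype) hρ.1
      exact ⟨ψ, fun n hn hc => artin_over A N ψ hρ hv₀ hv hn hc⟩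
    constructor
    · intro h χ hχ
      obtain ⟨ψ, hψ⟩ := main χ hχ
      rcases h ψ with h1 | h1
      · exact (hψ 1 (by simpa using h1) (Or.inl le_rfl)).1
      · obtain ⟨m, hm, -⟩ := order_Lin_eq A N ψ
        exact (hψ m hm.le (Or.inr (Or.inl h1))).1
    · intro R hR hc χ hχ
      obtain ⟨ψ, hψ⟩ := main χ hχ
      refine hψ R (hR ψ) ?_
      rcases hc with hc | ⟨hs, hc⟩
      · exact Or.inl hc
      · refine Or.inr (Or.inr ⟨inferInstance, ?_⟩)
        have hF : Free (Nonempty (TwoDim A)) R G := by
          rcases hc with ⟨P, hP, hrP, hq⟩ | ⟨h12, h6⟩ | ⟨h10, hodd, h375, h1215⟩ | ⟨hT, hc⟩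
          · exact free_least _ hP hrP hq
          · exact free_twelve _ h12 h6
          · exact free_ten _ h10 hodd h375 h1215
          · rcases hc with h2 | ⟨h6, h108, h160, h375⟩
            · rintro H X _ f hf ⟨F, D, hF, hD, hobs⟩
              have hD2 := hD hT
              have hD1 := hF.one_lt
              rcases hobs with h | ⟨h, -⟩ <;> omega
            · have h1 : Free True R G := (free_six h108 h160 h375).mono h6
              rintro H X _ f hf ⟨F, D, hF, hD, hobs⟩
              exact h1 H X f hf ⟨F, D, hF, fun _ => hD hT, hobs⟩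
        exact hF.sub (stab N ψ)

end Pool.Agent.Results.MP_d2121a_nt.HeckeOrders
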