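import Mathlib
import Pool.Agent.V1142.AT.Fin

/-!
# Artin's holomorphy conjecture for high tensor powers and symmetric powers

`Pool.Agent.H541R3.ART.Irr G` is the set of irreducible complex characters of the finite group `G`.

`Pool.Agent.H541R3.ART.ArtinData G s₀` is a family of functions with the formal properties of the
Artin L-functions of a Galois extension `E/K` with group `G` near a point `s₀ ≠ 1`: functions
`L χ` for the irreducible characters `χ` of `G` and `Lin H ψ` for the linear characters `ψ` of the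
subgroups `H`, such that `L χ` is meromorphic and not identically zero near `s₀` (Brauer), `Lin H ψ`
has no pole at `s₀` (Artin reciprocity and Hecke), and `Lin H ψ` is the product of the
`L χ ^ ⟨χ|_H, ψ⟩` (induction).

For a representation `ρ` of `G` on `ℂ ^ (d + 1)`: `scal ρ` is the subgroup of the elements which act
as scalars, `tensorPow ρ n` and `symPow ρ n` are the characters of the `n`-th tensor power and of the
`n`-th symmetric power of `ρ`. `Decomp f m` says that `f` is the sum of the irreducible characters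
`χ` with the multiplicities `m χ`, and then `LFun A m` is the Artin L-function with the character
`f`, the product of the `L χ ^ m χ`.

We prove that for every faithful `ρ` there is `n₀`, which depends on `G` and `ρ` only, such that for
all `n ≥ n₀` and all irreducible `χ` the L-functions of `χ ⊗ ρ^{⊗ n}` and of `χ ⊗ Sym^n ρ` have no pole
at any `s₀ ≠ 1`, for all Galois extensions with group `G`. For the tensor powers it is enough that
`∑_{g ∉ Z} |ρ(g)| ^ n ≤ |Z| (dim ρ) ^ n`, `Z = scal ρ`.

Proof. Let `θ` be the class function with the multiplicities `ord_{s₀} L χ` (Heilbronn). The part of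
`θ` on which `Z` acts as on `χ ⊗ ρ^{⊗ n}` is again a Heilbronn function, so it is bounded by its value
at `1`, which is the order `k ≥ 0` of a Hecke L-function; and `f = χ ρ ^ n` is concentrated on `Z`.
-/

set_option autoImplicit false

open Pool.Agent.H541R3.ART Pool.Agent.V1142.AT

theorem Pool.Agent.Results.MP_d2121a_nt.HighPowers.result :
    ∀ (G : Type) [Group G] [Finite G] (d : ℕ) (ρ : Representation ℂ G (Fin (d + 1) → ℂ)),
      Function.Injective ρ →
      ∃ n₀ : ℕ, ∀ (n : ℕ) (h : G → ℂ),
        ((n₀ ≤ n ∧ (h = tensorPow ρ n ∨ h = symPow ρ n)) ∨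
          (h = tensorPow ρ n ∧ ∑ᶠ g ∈ {g : G | g ∉ scal ρ}, ‖ρ.character g‖ ^ n
            ≤ Nat.card (scal ρ) * ((d + 1 : ℕ) : ℝ) ^ n)) →
        ∀ χ ∈ Irr G, ∀ m : (G → ℂ) → ℕ, Decomp (fun g => χ g * h g) m →
        ∀ (s₀ : ℂ) (A : ArtinData G s₀), 0 ≤ meromorphicOrderAt (LFun A m) s₀ := by
  intro G _ _ d ρ hρ
  obtain ⟨n₀, hn₀⟩ := eventually_small ρ 1 one_pos
  refine ⟨n₀, fun n h hh χ hχ m hm s₀ A => ?_⟩
  have key : ∃ H : ℝ, 0 < H ∧ h 1 = H ∧ (∀ z ∈ scal ρ, ∃ c : ℂ, ∀ g, h (g * z) = c * h g) ∧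
      ∑ᶠ g ∈ {g : G | g ∉ scal ρ}, ‖h g‖ ≤ 1 * (Nat.card (scal ρ) * H) := by
    rcases hh with ⟨h1, h2⟩ | ⟨h1, h2⟩
    · exact hn₀ n h1 h h2
    · subst h1
      refine ⟨((d + 1 : ℕ) : ℝ) ^ n, by positivity, tensorPow_one ρ n, tensorPow_tw ρ n, ?_⟩
      rw [one_mul]
      refine le_trans (le_of_eq ?_) h2
      refine finsum_congr fun g => finsum_congr fun _ => ?_
      rw [tensorPow, norm_pow]
  obtain ⟨H, hH, h1, htw, hE⟩ := key
  obtain ⟨ω, -, hω⟩ := order_estimate hρ h H hH h1 htw 1 hE hχ
  obtain ⟨k, o, -, ho, hest⟩ := hω m hm s₀ A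
  obtain ⟨e, he, he1, -⟩ := irr_one hχ
  have hre : (χ 1).re = e := by rw [he1]; simp
  rw [hre] at hest
  have hG : (0 : ℝ) < Nat.card G := by exact_mod_cast Nat.card_pos
  have hZ : (0 : ℝ) < Nat.card (scal ρ) := by exact_mod_cast Nat.card_pos
  have heR : (0 : ℝ) < e := by exact_mod_cast he
  have := le_of_estimate hG (mul_pos hZ (mul_pos heR hH)) le_rfl hest
  rw [ho]
  exact_mod_cast this
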