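import Mathlib
import Pool.Agent.V11187.AR.Num

/-!
# Artin's holomorphy conjecture at real points

`Pool.Agent.H541R3.ART.Irr G` is the set of irreducible complex characters of the finite group `G`.

`Pool.Agent.H541R3.ART.ArtinData G s₀` is a family of functions with the formal properties of the
Artin L-functions of a Galois extension `E/K` with group `G` near a point `s₀ ≠ 1`: functions
`L χ` for the irreducible characters `χ` of `G` and `Lin H ψ` for the linear characters `ψ` of the
subgroups `H`, such that `L χ` is meromorphic and not identically zero near `s₀` (Brauer), `Lin H ψ`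
has no pole at `s₀` (Artin reciprocity and Hecke), and `Lin H ψ` is the product of the
`L χ ^ ⟨χ|_H, ψ⟩` (induction). `Lin H 1` is the Dedekind zeta function of the fixed field of `H`, and
`Lin ⊥ 1` that of `E`.

`Pool.Agent.V11187.AR.RealPoint A` says that `L χ` and `L χ'`, where `χ' g = χ g⁻¹` is the complex
conjugate of `χ`, have the same order at `s₀`. For Artin L-functions this holds at all real `s₀`,
since `L(s, χ')` is the complex conjugate of `L(s', χ)`, `s'` the complex conjugate of `s`.

`Pool.Agent.W446.AS.TwoDim A` are functions with the formal properties of the Artin L-functions of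
the irreducible characters of degree two of the subgroups of `G`; for solvable `G` these have no pole
at `s₀` by the theorem of Langlands and Tunnell.

`Pool.Agent.W446.AS.FObstruct lt n X` says that `X` has a frame `F` of degree `D` (with `D ≠ 2` if
`lt` holds) such that `2 D ≤ n`, or `D ≤ n` and `X / F` is cyclic. Here `F` is a frame of degree
`D > 1` if the centre `Z` of `X` is cyclic and contains all abelian normal subgroups of `X`, and `F`
is a normal subgroup of `X` containing `Z` such that `F / Z` is abelian of order `D ^ 2` and the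
centraliser of `F` in `X` is `Z`. `Pool.Agent.W446.AS.Free lt n T` says that no quotient `X` of a
subgroup of `T` has `FObstruct lt n X`, and `Pool.Agent.V11187.AR.FreeR lt r T` that no such `X` has
`FObstruct lt (rdeg r X) X`, where `rdeg r X` is `r` if the centre of `X` has order at most two and
`r / 2` (rounded down) otherwise.

`Pool.Agent.V11187.AH.stab N ψ` is the stabiliser in `G` of the linear character `ψ` of `N`, and
`Pool.Agent.V11187.AH.Supersolvable Q` says that `Q` has a finite chain of normal subgroups, from the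
trivial subgroup to `Q`, with cyclic successive quotients.
-/

set_option autoImplicit false

namespace Pool.Agent.Results.MP_d2121a_nt.RealPoints

open Pool.Agent.H541R3.ART Pool.Agent.W446.AS Pool.Agent.V11187.AH Pool.Agent.V11187.AR

/-- The character `χ` of `G` lies over the linear character `ψ` of `N`: the multiplicity of `ψ` in
the restriction of `χ` is not zero. -/
def Over {G : Type} [Group G] (N : Subgroup G) (ψ : N →* ℂˣ) (χ : G → ℂ) : Prop :=
  ∑ᶠ a : N, χ a * (((ψ a)⁻¹ : ℂˣ) : ℂ) ≠ 0

/-- Let `G` be the Galois group of `E/K` and `s₀` a real point.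
(1) Let the irreducible character `χ` of `G` lie over a linear character `ψ` of a normal subgroup
`N`, not equal to its complex conjugate, with stabiliser `T`, and let the Dedekind zeta function of
the fixed field of the kernel of `ψ` have order at most `2 n + 1` at `s₀`. If `n ≤ 1`, or if `T / N`
is supersolvable, or if `T` is solvable and `Free n T` holds, then `L χ` has no pole at `s₀`, and its
order is at most `n`.
(2) Let `G` be solvable, and let the Dedekind zeta function of `E` have order at most `r` at `s₀`.
Then no `L χ` has a pole at `s₀` if `FreeR r G` holds, in particular in each of the following cases: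
`r ≤ 4 P - 3` and all prime divisors of `|G|` are at least `P ≥ 3`; `r ≤ 25` and `|G|` is prime to
`6`; `r ≤ 21` and `|G|` is odd and divisible neither by `375` nor by `1215`; the `L`-functions of
degree two have no pole at `s₀` and `r ≤ 3`, or `r ≤ 5` and `160` does not divide `|G|`, or `r ≤ 7` and
neither `108` nor `160` divides `|G|`. -/
theorem result (G : Type) [Group G] [Finite G] (s₀ : ℂ) (A : ArtinData G s₀) (hR : RealPoint A) :
    (∀ (N : Subgroup G) [N.Normal], ∀ χ ∈ Irr G, ∀ ψ : N →* ℂˣ, Over N ψ χ → ψ ≠ ψ⁻¹ → ∀ n : ℕ,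
      meromorphicOrderAt (A.Lin (ψ.ker.map N.subtype) 1) s₀ ≤ ((2 * n + 1 : ℕ) : WithTop ℤ) →
      (n ≤ 1 ∨ Supersolvable (stab N ψ ⧸ N.subgroupOf (stab N ψ)) ∨
        (Group.IsSolvable (stab N ψ) ∧ Free (Nonempty (TwoDim A)) n (stab N ψ))) →
      0 ≤ meromorphicOrderAt (A.L χ) s₀ ∧ meromorphicOrderAt (A.L χ) s₀ ≤ (n : WithTop ℤ)) ∧
    (Group.IsSolvable G → ∀ r : ℕ, meromorphicOrderAt (A.Lin ⊥ 1) s₀ ≤ (r : WithTop ℤ) →
      (FreeR (Nonempty (TwoDim A)) r G ∨
        (∃ P : ℕ, 3 ≤ P ∧ r ≤ 4 * P - 3 ∧ ∀ q : ℕ, q.Prime → q ∣ Nat.card G → P ≤ q) ∨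
        (r ≤ 25 ∧ (Nat.card G).Coprime 6) ∨
        (r ≤ 21 ∧ Odd (Nat.card G) ∧ ¬ 375 ∣ Nat.card G ∧ ¬ 1215 ∣ Nat.card G) ∨
        (Nonempty (TwoDim A) ∧ (r ≤ 3 ∨ (r ≤ 5 ∧ ¬ 160 ∣ Nat.card G) ∨
          (r ≤ 7 ∧ ¬ 108 ∣ Nat.card G ∧ ¬ 160 ∣ Nat.card G)))) →
      ∀ χ ∈ Irr G, 0 ≤ meromorphicOrderAt (A.L χ) s₀) := by
  classical
  refine ⟨?_, ?_⟩
  · intro N _ χ hχ ψ hover hψ n hn hc
    obtain ⟨d, ρ, hρ, rfl⟩ := exists_rep hχ
    obtain ⟨v₀, hv₀, hv⟩ := exists_vec (ρ := ρ) N ψ hover
    have h1 := lin_order_two A hR N ψ hψ hn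
    have h2 : (2 * n + 1) / 2 = n := by omega
    rw [h2] at h1
    exact artin_over A N ψ hρ hv₀ hv h1 hc
  · intro hsol r hr hc
    have key : FreeR (Nonempty (TwoDim A)) r G := by
      rcases hc with hc | ⟨P, hP, hrP, hq⟩ | ⟨h25, h6⟩ | ⟨h21, hodd, h375, h1215⟩ | ⟨hT, hc⟩
      · exact hc
      · refine freeR_odd ?_ (free_least _ hP (by omega) hq)
        rw [← Nat.not_even_iff_odd, even_iff_two_dvd]
        intro h2
        have := hq 2 Nat.prime_two h2
        omega
      · refine freeR_odd ?_ (free_twelve _ (by omega) h6)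
        rw [← Nat.not_even_iff_odd, even_iff_two_dvd]
        intro h2
        have h3 : 2 ∣ Nat.gcd (Nat.card G) 6 := Nat.dvd_gcd h2 (by norm_num)
        rw [h6] at h3
        norm_num at h3
      · exact freeR_odd hodd (free_ten _ (by omega) hodd h375 h1215)
      · have h1 := freeR_seven hc
        rintro H X _ f hf ⟨F, D, hF, hD, hobs⟩
        exact h1 H X f hf ⟨F, D, hF, fun _ => hD hT, hobs⟩
    exact artin_real _ A hR (fun h => h) hr key

end Pool.Agent.Results.MP_d2121a_nt.RealPoints
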