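import Pool.Agent.V11288.QU.Artin

/-!
# Zeros and poles of Artin `L`-functions and the partial Euler products

Let `L/K` be a finite Galois extension of number fields and `ρ` a complex representation of its Galois group.
By Brauer's induction theorem and Hecke's theorem `L(s, ρ) = G₁(s)/G₂(s)` with `G₁`, `G₂` products of Hecke
`L`-functions (multiplied by powers of `s - 1`), which are entire, of polynomial growth in vertical strips,
and bounded from below far to the right.  Artin's conjecture says that there are no poles (except possibly at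
`s = 1`).  Here this representation as a quotient on a half plane `Re s > σ - η` is the only hypothesis on the
analytic side; the Euler product is over all primes of `K` unramified in `L` (the factors at the ramified
primes have neither zeros nor poles for `Re s > 0`).

For the unramified primes `v` and `k ≥ 1` let `χ(v, k) = tr ρ(Frob_v^k)`, the sum of the `k`-th powers of the
eigenvalues of `ρ(Frob_v)`, and for real `t` and `Y > 1`

`log |P_{σ+it}(Y)| = ∑_{N v^k ≤ Y} Re (χ(v, k) / (k N v^{k(σ + it)}))`.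

It is shown for all real `σ ≥ 1/2`:

1. Let `r(t)`, `A(t) > 0` be arbitrary real functions.  `L(s, ρ)` has neither zeros nor poles with
   `Re s > σ`, and for every real `t` its order at `σ + it` is `r(t)` and the absolute value of the leading
   coefficient is `A(t)`, IF AND ONLY IF for every `t` the integral
   `∫_1^∞ (log |P_{σ+it}(Y)| + r(t) (log log Y + γ) - log A(t))² dY/Y` is finite.

2. If the integral at `t` is finite (for `r`, `A`), it is equal to
   `(1/π) ∫_{-∞}^∞ (½ log |L(σ + i(t+u), ρ)| + ½ log |L(σ + i(t-u), ρ)| - r log |u| - log A)² du/u²`.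

3. `L(s, ρ)` is holomorphic on the closed half plane `Re s ≥ σ` and has no zeros in the open half plane
   `Re s > σ` IF AND ONLY IF for every real `t` the integral is finite for some `A > 0` and some `r ≥ 0`.
   For `σ = 1/2` and irreducible `ρ ≠ 1` the left side is, by the functional equation: Artin's conjecture and
   the Riemann hypothesis hold for `L(s, ρ)`.

4. If the character of `ρ` is real, then `L(s, ρ)` has neither zeros nor poles with `Re s > σ` IF AND ONLY IF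
   the integral at the single point `t = 0` is finite for some `A > 0` and some `r`.

Proof.  As for `MP_bf61d2_nt.HolomorphyAndPrimes`: the mean square deviation is the norm of
`(log L(σ + s) - r log s - log A)/s` in the Hardy space of `Re s > 0` (for `t ≠ 0` one uses
`L(σ + it + s) conj L(σ + it + conj s)`).  If `G₁/G₂` has neither zeros nor poles there, the common zeros of
`G₁` and `G₂` are removed by Blaschke factors on discs of bounded radius, and the local mean square of the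
logarithm is bounded by Jensen's inequality (`Pool.Agent.V11288.QU`).
-/

set_option autoImplicit false

namespace Pool.Agent.Results.MP_d2121a_nt.ZerosAndPolesByPrimes

open Filter Topology MeasureTheory Set NumberField IsDedekindDomain

variable {K L : Type} [Field K] [NumberField K] [Field L] [NumberField L] [Algebra K L]

/-- The norm of `v`. -/
noncomputable def nrm (v : HeightOneSpectrum (𝓞 K)) : ℕ := Ideal.absNorm v.asIdeal

/-- The primes of `K` unramified in `L`: `v 𝓞_L` is squarefree. -/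
def Unram (K L : Type) [Field K] [NumberField K] [Field L] [NumberField L] [Algebra K L] :
    Set (HeightOneSpectrum (𝓞 K)) :=
  {v | Squarefree (v.asIdeal.map (algebraMap (𝓞 K) (𝓞 L)))}

/-- `g` is the Frobenius automorphism of a prime `Q` of `L` above `v`: `g(x) ≡ x^(N v)` modulo `Q`. -/
def IsFrobenius (v : HeightOneSpectrum (𝓞 K)) (g : L ≃ₐ[K] L) : Prop :=
  ∃ Q : Ideal (𝓞 L), Q.IsPrime ∧ Q.comap (algebraMap (𝓞 K) (𝓞 L)) = v.asIdeal ∧
    ∀ x y : 𝓞 L, (y : L) = g (x : L) → y - x ^ nrm v ∈ Q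

/-- The Euler factor `det (1 - ρ(Frob_v) (N v)^{-s})⁻¹`, by the eigenvalues of `ρ(Frob_v)`. -/
noncomputable def factor {n : ℕ} (ρ : (L ≃ₐ[K] L) →* Matrix (Fin n) (Fin n) ℂ)
    (frob : Unram K L → (L ≃ₐ[K] L)) (v : Unram K L) (s : ℂ) : ℂ :=
  ((ρ (frob v)).charpoly.roots.map fun a => (1 - a * (nrm v.1 : ℂ) ^ (-s))⁻¹).prod

/-- `χ(v, k)`: the sum of the `k`-th powers of the eigenvalues of `ρ(Frob_v)`. -/
noncomputable def trace {n : ℕ} (ρ : (L ≃ₐ[K] L) →* Matrix (Fin n) (Fin n) ℂ)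
    (frob : Unram K L → (L ≃ₐ[K] L)) (v : Unram K L) (k : ℕ) : ℂ :=
  ((ρ (frob v)).charpoly.roots.map fun a => a ^ k).sum

/-- `L(s, ρ)` is, far to the right, the quotient `G₁/G₂` of two functions which are holomorphic and of
polynomial growth on a half plane `Re s > σ - η`, and `G₂` is not too small far to the right. -/
structure IsQuotient {n : ℕ} (ρ : (L ≃ₐ[K] L) →* Matrix (Fin n) (Fin n) ℂ)
    (frob : Unram K L → (L ≃ₐ[K] L)) (σ : ℝ) (G₁ G₂ : ℂ → ℂ) : Prop where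
  cont : ∃ (η C : ℝ) (κ : ℕ), 0 < η ∧ ∀ s : ℂ, σ - η < s.re →
    DifferentiableAt ℂ G₁ s ∧ DifferentiableAt ℂ G₂ s ∧
      ‖G₁ s‖ ≤ C * (1 + ‖s‖) ^ κ ∧ ‖G₂ s‖ ≤ C * (1 + ‖s‖) ^ κ
  prod : ∃ (β C : ℝ) (κ : ℕ), ∀ s : ℂ, β < s.re →
    HasProd (fun v : Unram K L => factor ρ frob v s) (G₁ s / G₂ s) ∧
      1 ≤ C * (1 + ‖s‖) ^ κ * ‖G₂ s‖

/-- `log |P_{σ+it}(Y)|`: the sum of `Re (χ(v, k) / (N v)^(k (σ + it))) / k` over all unramified primes `v` and
`k ≥ 1` (here `k = v.2 + 1`) with `(N v)^k ≤ Y`. -/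
noncomputable def logAbsP {n : ℕ} (ρ : (L ≃ₐ[K] L) →* Matrix (Fin n) (Fin n) ℂ)
    (frob : Unram K L → (L ≃ₐ[K] L)) (σ t Y : ℝ) : ℝ :=
  ∑ᶠ (v : Unram K L × ℕ) (_ : (nrm v.1.1 : ℝ) ^ (v.2 + 1) ≤ Y),
    (trace ρ frob v.1 (v.2 + 1) /
      (nrm v.1.1 : ℂ) ^ (((v.2 : ℂ) + 1) * (σ + t * Complex.I))).re / ((v.2 : ℝ) + 1)

/-- `∫_1^∞ (log |P_{σ+it}(Y)| + r (γ + log log Y) - log A)² dY/Y ∈ [0, ∞]`. -/
noncomputable def meanSquare {n : ℕ} (ρ : (L ≃ₐ[K] L) →* Matrix (Fin n) (Fin n) ℂ)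
    (frob : Unram K L → (L ≃ₐ[K] L)) (σ t r A : ℝ) : ENNReal :=
  ∫⁻ Y in Ioi (1 : ℝ), ENNReal.ofReal
    ((logAbsP ρ frob σ t Y + r * (Real.eulerMascheroniConstant + Real.log (Real.log Y)) -
      Real.log A) ^ 2 / Y)

/-- The meromorphic function `G₁/G₂` has neither zeros nor poles with `Re s > σ`. -/
def NoZerosNoPoles (G₁ G₂ : ℂ → ℂ) (σ : ℝ) : Prop :=
  ∀ s : ℂ, σ < s.re → meromorphicOrderAt (fun s => G₁ s / G₂ s) s = 0

/-- The order of `G₁/G₂` at `c` is the integer `r` and `A` is the absolute value of the leading coefficient: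
`|G₁(s)/G₂(s)| / |s - c|^r → A` for `s → c`. -/
def LeadingAt (G₁ G₂ : ℂ → ℂ) (c : ℂ) (r A : ℝ) : Prop :=
  ∃ k : ℤ, r = k ∧ Tendsto (fun s : ℂ => ‖G₁ s / G₂ s‖ / ‖s - c‖ ^ k) (𝓝[≠] c) (𝓝 A)

open Pool.Agent.V11288.QU

/-- the local eigenvalues -/
noncomputable def eigs {n : ℕ} (ρ : (L ≃ₐ[K] L) →* Matrix (Fin n) (Fin n) ℂ)
    (frob : Unram K L → (L ≃ₐ[K] L)) (v : Unram K L) : Fin n → ℂ := App.enum (ρ (frob v))

theorem bound {n : ℕ} (ρ : (L ≃ₐ[K] L) →* Matrix (Fin n) (Fin n) ℂ)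
    (frob : Unram K L → (L ≃ₐ[K] L)) : App.Bound 0 (eigs ρ frob) := by
  intro v i
  rw [zero_div, Real.rpow_zero]
  exact (App.enum_norm ρ (frob v) i).le

theorem isQ {n : ℕ} {ρ : (L ≃ₐ[K] L) →* Matrix (Fin n) (Fin n) ℂ}
    {frob : Unram K L → (L ≃ₐ[K] L)} {σ : ℝ} {G₁ G₂ : ℂ → ℂ} (h : IsQuotient ρ frob σ G₁ G₂) :
    App.IsQuotient σ (eigs ρ frob) G₁ G₂ := by
  refine ⟨h.cont, ?_⟩
  obtain ⟨β, C, κ, h1⟩ := h.prod
  refine ⟨β, C, κ, fun s hs => ⟨?_, (h1 s hs).2⟩⟩
  have h2 := (h1 s hs).1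
  have e : (fun v : Unram K L => Pool.Agent.V11288.HS.EX.factor (eigs ρ frob) v s) =
      fun v : Unram K L => factor ρ frob v s := by
    funext v
    unfold factor
    rw [App.enum_prod]
    rfl
  rw [e]
  exact h2

theorem trace_eq {n : ℕ} (ρ : (L ≃ₐ[K] L) →* Matrix (Fin n) (Fin n) ℂ)
    (frob : Unram K L → (L ≃ₐ[K] L)) (v : Unram K L) (k : ℕ) :
    trace ρ frob v k = ∑ j, eigs ρ frob v j ^ k := by
  unfold trace
  rw [App.enum_sum]
  rfl

theorem ms_eq {n : ℕ} (ρ : (L ≃ₐ[K] L) →* Matrix (Fin n) (Fin n) ℂ)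
    (frob : Unram K L → (L ≃ₐ[K] L)) (σ t r A : ℝ) : meanSquare ρ frob σ t r A =
    App.meanSquare σ t (eigs ρ frob) r A := by
  have e : ∀ Y : ℝ, logAbsP ρ frob σ t Y = App.logAbs σ t (eigs ρ frob) Y := by
    intro Y
    unfold logAbsP App.logAbs
    refine finsum_congr fun p => finsum_congr fun _ => ?_
    rw [trace_eq]
    rfl
  unfold meanSquare App.meanSquare
  simp only [e]

/-- **Zeros and poles of Artin `L`-functions and the absolute values of the partial Euler products.** -/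
theorem result (K L : Type) [Field K] [NumberField K] [Field L] [NumberField L] [Algebra K L]
    [IsGalois K L] {n : ℕ} (ρ : (L ≃ₐ[K] L) →* Matrix (Fin n) (Fin n) ℂ)
    (frob : Unram K L → (L ≃ₐ[K] L)) (_hfrob : ∀ v : Unram K L, IsFrobenius v.1 (frob v))
    (σ : ℝ) (hσ : 1 / 2 ≤ σ) (G₁ G₂ : ℂ → ℂ) (hG : IsQuotient ρ frob σ G₁ G₂) :
    (∀ r A : ℝ → ℝ, (∀ t, 0 < A t) →
      ((NoZerosNoPoles G₁ G₂ σ ∧ ∀ t : ℝ, LeadingAt G₁ G₂ (σ + t * Complex.I) (r t) (A t)) ↔
        ∀ t : ℝ, meanSquare ρ frob σ t (r t) (A t) < ⊤)) ∧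
    (∀ t r A : ℝ, 0 < A → meanSquare ρ frob σ t r A < ⊤ →
      meanSquare ρ frob σ t r A = ENNReal.ofReal Real.pi⁻¹ * ∫⁻ u : ℝ, ENNReal.ofReal
        (((Real.log ‖G₁ (σ + (t + u) * Complex.I) / G₂ (σ + (t + u) * Complex.I)‖ +
          Real.log ‖G₁ (σ + (t - u) * Complex.I) / G₂ (σ + (t - u) * Complex.I)‖) / 2 -
            r * Real.log |u| - Real.log A) ^ 2 / u ^ 2)) ∧
    ((NoZerosNoPoles G₁ G₂ σ ∧
        ∀ s : ℂ, s.re = σ → 0 ≤ meromorphicOrderAt (fun s => G₁ s / G₂ s) s) ↔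
      ∀ t : ℝ, ∃ r A : ℝ, 0 < A ∧ 0 ≤ r ∧ meanSquare ρ frob σ t r A < ⊤) ∧
    ((∀ v k, (trace ρ frob v k).im = 0) →
      (NoZerosNoPoles G₁ G₂ σ ↔ ∃ r A : ℝ, 0 < A ∧ meanSquare ρ frob σ 0 r A < ⊤)) := by
  have hQ := isQ hG
  have hb := bound ρ frob
  have hw : (0 : ℝ) ≤ 2 * σ - 1 := by linarith
  simp only [ms_eq]
  refine ⟨fun r A hA => App.all hb hw hQ r A hA, fun t r A hA hf => App.formula hb hw hQ t r hA hf, ?_,
    fun hr => App.real_iff hb (fun v k => by rw [← trace_eq]; exact hr v k) hw hQ⟩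
  have h1 := App.closed hb hw hQ (fun _ r => 0 ≤ r)
  refine Iff.trans (and_congr Iff.rfl ?_) h1
  constructor
  · intro h t
    obtain ⟨k, A, -, h2, -⟩ := App.exists_order hb hw hQ t
    refine ⟨k, h2, ?_⟩
    have h3 := h (σ + t * Complex.I) (by simp)
    rw [h2] at h3
    have h4 : (0 : ℤ) ≤ k := by exact_mod_cast h3
    exact_mod_cast h4
  · intro h s hs
    obtain ⟨k, h2, h3⟩ := h s.im
    have e : (σ : ℂ) + s.im * Complex.I = s := by
      rw [← hs]
      exact Complex.re_add_im s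
    rw [e] at h2
    rw [h2]
    have h4 : (0 : ℤ) ≤ k := by exact_mod_cast h3
    exact_mod_cast h4

end Pool.Agent.Results.MP_d2121a_nt.ZerosAndPolesByPrimes
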